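import Mathlib

/-!
# The lemma of Farkas over an ordered field
-/

set_option autoImplicit false

namespace Pool.Agent.Helper70.Art

theorem farkas_fin {k W : Type*} [Field k] [LinearOrder k] [IsStrictOrderedRing k]
    [AddCommGroup W] [Module k W] (n : ℕ) : ∀ (a : Fin n → W →ₗ[k] k) (b : W →ₗ[k] k),
    (∀ x, (∀ i, 0 ≤ a i x) → 0 ≤ b x) →
    ∃ c : Fin n → k, (∀ i, 0 ≤ c i) ∧ ∀ x, b x = ∑ i, c i * a i x := by
  induction n with
  | zero =>
    intro a b h
    refine ⟨fun _ => 0, fun _ => le_rfl, fun x => ?_⟩
    have h1 := h x (fun i => i.elim0)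
    have h2 := h (-x) (fun i => i.elim0)
    rw [map_neg] at h2
    simp only [Finset.univ_eq_empty, Finset.sum_empty]
    linarith
  | succ n ih =>
    intro a b h
    by_cases hc : ∀ x, (∀ i : Fin n, 0 ≤ a i.castSucc x) → 0 ≤ b x
    · obtain ⟨c, hc0, hc1⟩ := ih (fun i => a i.castSucc) b hc
      refine ⟨Fin.snoc c 0, ?_, fun x => ?_⟩
      · intro i
        refine Fin.lastCases ?_ (fun j => ?_) i
        · simp
        · simpa using hc0 j
      · rw [Fin.sum_univ_castSucc, hc1]
        simp
    · push Not at hc
      obtain ⟨x₀, hx0, hb0⟩ := hc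
      have hl : a (Fin.last n) x₀ < 0 := by
        by_contra hcon
        push Not at hcon
        refine absurd (h x₀ fun i => ?_) (not_le.2 hb0)
        refine Fin.lastCases hcon (fun j => hx0 j) i
      set t := a (Fin.last n) x₀ with ht
      have ht0 : t ≠ 0 := hl.ne
      -- modified forms
      let a' : Fin n → W →ₗ[k] k := fun i => a i.castSucc - (a i.castSucc x₀ / t) • a (Fin.last n)
      let b' : W →ₗ[k] k := b - (b x₀ / t) • a (Fin.last n)
      obtain ⟨c, hc0, hc1⟩ := ih a' b' (by
        intro x hx
        let y := x - (a (Fin.last n) x / t) • x₀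
        have hy : ∀ i, 0 ≤ a i y := by
          intro i
          refine Fin.lastCases ?_ (fun j => ?_) i
          · have : a (Fin.last n) y = 0 := by
              simp only [y, map_sub, map_smul, smul_eq_mul]
              rw [← ht]
              field_simp
              ring
            rw [this]
          · have : a j.castSucc y = a' j x := by
              simp only [y, a', map_sub, map_smul, smul_eq_mul, LinearMap.sub_apply,
                LinearMap.smul_apply]
              ring
            rw [this]
            exact hx j
        have h1 := h y hy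
        have h2 : b y = b' x := by
          simp only [y, b', map_sub, map_smul, smul_eq_mul, LinearMap.sub_apply,
            LinearMap.smul_apply]
          ring
        rwa [h2] at h1)
      have hlast : 0 ≤ b x₀ / t - ∑ i, c i * (a i.castSucc x₀ / t) := by
        have h1 : b x₀ / t - ∑ i, c i * (a i.castSucc x₀ / t)
            = (b x₀ - ∑ i, c i * a i.castSucc x₀) / t := by
          rw [sub_div, Finset.sum_div]
          congr 1
          exact Finset.sum_congr rfl fun i _ => by ring
        rw [h1]
        refine div_nonneg_of_nonpos ?_ hl.le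
        have : 0 ≤ ∑ i, c i * a i.castSucc x₀ :=
          Finset.sum_nonneg fun i _ => mul_nonneg (hc0 i) (hx0 i)
        linarith
      refine ⟨Fin.snoc c (b x₀ / t - ∑ i, c i * (a i.castSucc x₀ / t)), ?_, fun x => ?_⟩
      · intro i
        refine Fin.lastCases ?_ (fun j => ?_) i
        · simpa using hlast
        · simpa using hc0 j
      · have h1 := hc1 x
        simp only [a', b', LinearMap.sub_apply, LinearMap.smul_apply, smul_eq_mul] at h1
        rw [Fin.sum_univ_castSucc]
        simp only [Fin.snoc_castSucc, Fin.snoc_last]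
        rw [sub_eq_iff_eq_add] at h1
        rw [h1]
        simp only [mul_sub, Finset.sum_sub_distrib, sub_mul, Finset.sum_mul]
        have h2 : ∑ i, c i * (a i.castSucc x₀ / t * a (Fin.last n) x)
            = ∑ i, c i * (a i.castSucc x₀ / t) * a (Fin.last n) x :=
          Finset.sum_congr rfl fun i _ => by ring
        rw [h2]
        ring

/-- The lemma of Farkas for finitely many linear forms. -/
theorem farkas {k W ι : Type*} [Field k] [LinearOrder k] [IsStrictOrderedRing k]
    [AddCommGroup W] [Module k W] [Fintype ι] (a : ι → W →ₗ[k] k) (b : W →ₗ[k] k)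
    (h : ∀ x, (∀ i, 0 ≤ a i x) → 0 ≤ b x) :
    ∃ c : ι → k, (∀ i, 0 ≤ c i) ∧ ∀ x, b x = ∑ i, c i * a i x := by
  obtain ⟨c, hc0, hc1⟩ := farkas_fin (Fintype.card ι)
    (fun i => a ((Fintype.equivFin ι).symm i)) b (fun x hx => h x fun i => by
      have := hx (Fintype.equivFin ι i)
      simpa using this)
  refine ⟨fun i => c (Fintype.equivFin ι i), fun i => hc0 _, fun x => ?_⟩
  rw [hc1, ← (Fintype.equivFin ι).sum_comp]
  simp

end Pool.Agent.Helper70.Art
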