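import Pool.Agent.Helper70.Art.Euler

/-!
# The Dedekind zeta function as a sum and as a product
-/

set_option autoImplicit false

open Filter Topology IsDedekindDomain NumberField Ideal

open scoped nonZeroDivisors

namespace Pool.Agent.Helper70.Art

noncomputable section

variable (K : Type*) [Field K] [NumberField K]

/-- The number of ideals of a given norm. -/
abbrev cnt (n : ℕ) : ℕ := Nat.card {I : Ideal (𝓞 K) // absNorm I = n}

theorem summable_cnt (s : ℂ) (hs : 1 < s.re) : LSeriesSummable (fun n => (cnt K n : ℂ)) s := by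
  have h1 : Tendsto (fun n : ℕ => (∑ k ∈ Finset.Icc 1 n, (cnt K k : ℝ)) / (n : ℝ)) atTop
      (𝓝 (dedekindZeta_residue K)) := by
    refine ((NumberField.Ideal.tendsto_norm_le_div_atTop₀ K).comp
      tendsto_natCast_atTop_atTop).congr fun n ↦ ?_
    simp only [Function.comp_apply, Nat.cast_le, ← Nat.cast_sum]
    congr
    rw [← add_left_inj 1, ← card_norm_le_eq_card_norm_le_add_one,
      show Finset.Icc 1 n = Finset.Ioc 0 n from Finset.Icc_succ_left_eq_Ioc _ _,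
      show 1 = Nat.card {I : Ideal (𝓞 K) // absNorm I = 0} by simp [Ideal.absNorm_eq_zero_iff],
      Finset.sum_Ioc_add_eq_sum_Icc (n.zero_le),
      ← Finset.card_preimage_eq_sum_card_image_eq (fun k _ ↦ finite_setOfPred_absNorm_eq k)]
    simp [Set.coe_eq_subtype]
  have h2 : (fun n : ℕ => ∑ k ∈ Finset.Icc 1 n, (cnt K k : ℝ)) =O[atTop] fun n => (n : ℝ) ^ (1 : ℝ) :=
    Asymptotics.isBigO_atTop_natCast_rpow_of_tendsto_div_rpow (𝕜 := ℝ) (by simpa using h1)
  have h3 := LSeriesSummable_of_sum_norm_bigO_and_nonneg h2 (fun n => Nat.cast_nonneg _)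
    zero_le_one hs
  exact (LSeriesSummable_congr s (fun _ => by simp)).1 h3

/-- The completely multiplicative function of the ideals. -/
def nf (s : ℂ) (hs : s ≠ 0) : Ideal (𝓞 K) →*₀ ℂ where
  toFun I := ((absNorm I : ℕ) : ℂ) ^ (-s)
  map_zero' := by
    simp [Complex.zero_cpow (neg_ne_zero.2 hs)]
  map_one' := by simp
  map_mul' I J := by
    rw [map_mul, Nat.cast_mul, Complex.natCast_mul_natCast_cpow]

@[simp] theorem nf_apply (s : ℂ) (hs : s ≠ 0) (I : Ideal (𝓞 K)) :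
    nf K s hs I = ((absNorm I : ℕ) : ℂ) ^ (-s) := rfl

theorem term_eq (s : ℂ) (hs : s ≠ 0) (n : ℕ) :
    LSeries.term (fun n => (cnt K n : ℂ)) s n = ∑' I : {I : Ideal (𝓞 K) // absNorm I = n},
      ((absNorm I.1 : ℕ) : ℂ) ^ (-s) := by
  have hfin : Finite {I : Ideal (𝓞 K) // absNorm I = n} := finite_setOfPred_absNorm_eq n
  have := Fintype.ofFinite {I : Ideal (𝓞 K) // absNorm I = n}
  have h1 : ∀ I : {I : Ideal (𝓞 K) // absNorm I = n}, ((absNorm I.1 : ℕ) : ℂ) ^ (-s)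
      = (n : ℂ) ^ (-s) := fun I => by rw [I.2]
  rw [tsum_congr h1, tsum_fintype, Finset.sum_const, Finset.card_univ, ← Nat.card_eq_fintype_card,
    nsmul_eq_mul]
  rcases eq_or_ne n 0 with rfl | hn
  · simp [Complex.zero_cpow (neg_ne_zero.2 hs)]
  · rw [LSeries.term_of_ne_zero hn, Complex.cpow_neg, div_eq_mul_inv]

theorem norm_term_eq (s : ℂ) (hs : s ≠ 0) (n : ℕ) :
    ‖LSeries.term (fun n => (cnt K n : ℂ)) s n‖ = ∑' I : {I : Ideal (𝓞 K) // absNorm I = n},
      ‖((absNorm I.1 : ℕ) : ℂ) ^ (-s)‖ := by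
  have hfin : Finite {I : Ideal (𝓞 K) // absNorm I = n} := finite_setOfPred_absNorm_eq n
  have := Fintype.ofFinite {I : Ideal (𝓞 K) // absNorm I = n}
  rw [term_eq K s hs n]
  have h1 : ∀ I : {I : Ideal (𝓞 K) // absNorm I = n}, ((absNorm I.1 : ℕ) : ℂ) ^ (-s)
      = (n : ℂ) ^ (-s) := fun I => by rw [I.2]
  have h2 : ∀ I : {I : Ideal (𝓞 K) // absNorm I = n}, ‖((absNorm I.1 : ℕ) : ℂ) ^ (-s)‖
      = ‖(n : ℂ) ^ (-s)‖ := fun I => by rw [I.2]
  rw [tsum_congr h1, tsum_congr h2, tsum_fintype, tsum_fintype, Finset.sum_const, Finset.sum_const,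
    nsmul_eq_mul, nsmul_eq_mul, norm_mul, Complex.norm_natCast]

theorem ne_zero_of_re {s : ℂ} (hs : 1 < s.re) : s ≠ 0 := by
  rintro rfl
  simp at hs
  linarith

theorem summable_nf (s : ℂ) (hs : 1 < s.re) :
    Summable fun I : Ideal (𝓞 K) => ‖((absNorm I : ℕ) : ℂ) ^ (-s)‖ := by
  have hs0 := ne_zero_of_re hs
  rw [← (Equiv.sigmaFiberEquiv (fun I : Ideal (𝓞 K) => absNorm I)).summable_iff]
  refine (summable_sigma_of_nonneg (fun _ => norm_nonneg _)).2 ?_
  constructor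
  · intro n
    have hfin : Finite {I : Ideal (𝓞 K) // absNorm I = n} := finite_setOfPred_absNorm_eq n
    exact Summable.of_finite
  · refine (summable_cnt K s hs).norm.congr fun n => ?_
    rw [norm_term_eq K s hs0 n]
    rfl

theorem dedekindZeta_eq_tsum (s : ℂ) (hs : 1 < s.re) :
    dedekindZeta K s = ∑' I : Ideal (𝓞 K), ((absNorm I : ℕ) : ℂ) ^ (-s) := by
  have hs0 := ne_zero_of_re hs
  unfold dedekindZeta LSeries
  rw [← (Equiv.sigmaFiberEquiv (fun I : Ideal (𝓞 K) => absNorm I)).tsum_eq]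
  have h1 : Summable fun z : (Σ n, {I : Ideal (𝓞 K) // absNorm I = n}) =>
      ((absNorm (Equiv.sigmaFiberEquiv (fun I : Ideal (𝓞 K) => absNorm I) z) : ℕ) : ℂ) ^ (-s) :=
    (Equiv.summable_iff _).2 (summable_nf K s hs).of_norm
  rw [h1.tsum_sigma]
  refine tsum_congr fun n => ?_
  exact term_eq K s hs0 n

theorem dedekindZeta_hasProd (s : ℂ) (hs : 1 < s.re) :
    HasProd (fun 𝔮 : HeightOneSpectrum (𝓞 K) =>
      (1 - ((absNorm 𝔮.asIdeal : ℕ) : ℂ) ^ (-s))⁻¹) (dedekindZeta K s) := by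
  have := hasProd_euler (nf K s (ne_zero_of_re hs)) (summable_nf K s hs)
  simp only [nf_apply] at this
  rw [← dedekindZeta_eq_tsum K s hs] at this
  exact this

theorem summable_primes (s : ℂ) (hs : 1 < s.re) :
    Summable fun 𝔮 : HeightOneSpectrum (𝓞 K) => ‖((absNorm 𝔮.asIdeal : ℕ) : ℂ) ^ (-s)‖ :=
  (summable_nf K s hs).comp_injective (i := fun 𝔮 : HeightOneSpectrum (𝓞 K) => 𝔮.asIdeal)
    fun _ _ h => HeightOneSpectrum.ext h

end

end Pool.Agent.Helper70.Art
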