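import Pool.Agent.Helper70.Art.Local

/-!
# The Artin formalism at a rational prime
-/

set_option autoImplicit false

open Ideal NumberField

open scoped Pointwise

namespace Pool.Agent.Helper70.Art

noncomputable section

section frob

variable {F : Type*} (N : Type*) [Field F] [NumberField F] [Field N] [NumberField N] [Algebra F N]
  {G : Type*} [Group G] [MulSemiringAction G N]

/-- The average of `ψ (σ)` over the pairs of a prime `P` of `N` above the prime `𝔮` of `F` and an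
element `σ` of `G` with `σ x ≡ x ^ N(𝔮)` modulo `P` for all integers `x` of `N`. -/
def frobAvg (ψ : G →* ℂˣ) (𝔮 : Ideal (𝓞 F)) : ℂ :=
  (∑ᶠ P : 𝔮.primesOver (𝓞 N), SP ψ P.1 (absNorm 𝔮)) /
    ∑ᶠ P : 𝔮.primesOver (𝓞 N), NP G P.1 (absNorm 𝔮)

variable [Finite G] [IsGaloisGroup G F N]

variable {N}

omit [NumberField F] in
theorem finite_quot (P : Ideal (𝓞 N)) (hP : P ≠ ⊥) : Finite (𝓞 N ⧸ P) :=
  Ideal.finiteQuotientOfFreeOfNeBot P hP

theorem exists_fr (𝔮 : Ideal (𝓞 F)) (h𝔮 : 𝔮 ≠ ⊥) (P : Ideal (𝓞 N)) [P.IsPrime] [P.LiesOver 𝔮] :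
    ∃ φ : G, Fr P (absNorm 𝔮) (φ • ·) := by
  have hP : P ≠ ⊥ := ne_bot_of_liesOver_of_ne_bot h𝔮 P
  have : Finite (𝓞 N ⧸ P) := finite_quot P hP
  obtain ⟨σ, hσ⟩ := IsArithFrobAt.exists_of_isInvariant (𝓞 F) G P
  refine ⟨σ, fun x => ?_⟩
  have h1 := hσ x
  rw [← over_def P 𝔮] at h1
  exact h1

theorem exists_smul_eq' (𝔮 : Ideal (𝓞 F)) (P P' : 𝔮.primesOver (𝓞 N)) :
    ∃ τ : G, τ • P.1 = P'.1 := by
  have := P.2.1
  have := P.2.2
  have := P'.2.1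
  have := P'.2.2
  exact exists_smul_eq_of_isGaloisGroup 𝔮 P.1 P'.1 G

omit [NumberField N] [Finite G] in
theorem card_inertia_smul (P : Ideal (𝓞 N)) (τ : G) :
    Nat.card ((τ • P).inertia G) = Nat.card (P.inertia G) := by
  refine (Nat.card_congr (Equiv.subtypeEquiv (MulAut.conj τ).toEquiv fun g => ?_)).symm
  have h1 : ∀ (Q : Ideal (𝓞 N)) (g : G), g ∈ Q.inertia G ↔ Fr Q 1 (g • ·) := by
    intro Q g
    constructor
    · intro h x
      have := h x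
      simpa using this
    · intro h x
      have := h x
      simpa using this
  have e1 : (MulAut.conj τ).toEquiv g = τ * g * τ⁻¹ := rfl
  rw [e1]
  change g ∈ P.inertia G ↔ τ * g * τ⁻¹ ∈ (τ • P).inertia G
  rw [h1, h1, fr_conj]

theorem frobAvg_eq (ψ : G →* ℂˣ) (𝔮 : Ideal (𝓞 F)) [𝔮.IsMaximal] (h𝔮 : 𝔮 ≠ ⊥) (P : 𝔮.primesOver (𝓞 N)) :
    frobAvg N ψ 𝔮 = SP ψ P.1 (absNorm 𝔮) / Nat.card (P.1.inertia G) := by
  have := P.2.1
  have := P.2.2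
  obtain ⟨φ, hφ⟩ := exists_fr (G := G) 𝔮 h𝔮 P.1
  have h1 : ∀ P' : 𝔮.primesOver (𝓞 N), SP ψ P'.1 (absNorm 𝔮) = SP ψ P.1 (absNorm 𝔮) := by
    intro P'
    obtain ⟨τ, hτ⟩ := exists_smul_eq' (G := G) 𝔮 P P'
    rw [← hτ, SP_smul]
  have h2 : ∀ P' : 𝔮.primesOver (𝓞 N), NP G P'.1 (absNorm 𝔮) = Nat.card (P.1.inertia G) := by
    intro P'
    obtain ⟨τ, hτ⟩ := exists_smul_eq' (G := G) 𝔮 P P'
    rw [← hτ, NP_eq, SP_smul, SP_eq _ _ _ φ hφ, aI_one]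
    simp
  unfold frobAvg
  rw [finsum_eq_sum_of_fintype, finsum_eq_sum_of_fintype, Finset.sum_congr rfl fun P' _ => h1 P',
    Finset.sum_congr rfl fun P' _ => h2 P', Finset.sum_const, Finset.sum_const, nsmul_eq_mul,
    nsmul_eq_mul]
  have h3 : ((Finset.univ : Finset (𝔮.primesOver (𝓞 N))).card : ℂ) ≠ 0 := by
    have : 0 < (Finset.univ : Finset (𝔮.primesOver (𝓞 N))).card :=
      Finset.card_pos.2 ⟨P, Finset.mem_univ _⟩
    exact_mod_cast this.ne'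
  exact mul_div_mul_left _ _ h3

theorem SP_pow_frobAvg (ψ : G →* ℂˣ) (𝔮 : Ideal (𝓞 F)) [𝔮.IsMaximal] (h𝔮 : 𝔮 ≠ ⊥)
    (P : 𝔮.primesOver (𝓞 N)) (k : ℕ) (hk : k ≠ 0) :
    SP ψ P.1 (absNorm 𝔮 ^ k) = Nat.card (P.1.inertia G) * frobAvg N ψ 𝔮 ^ k := by
  have := P.2.1
  have := P.2.2
  obtain ⟨φ, hφ⟩ := exists_fr (G := G) 𝔮 h𝔮 P.1
  rw [SP_pow ψ P.1 _ k hk φ hφ, frobAvg_eq ψ 𝔮 h𝔮 P]

theorem sum_weights (𝔮 : Ideal (𝓞 F)) [𝔮.IsMaximal] (h𝔮 : 𝔮 ≠ ⊥) :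
    ∑ P : 𝔮.primesOver (𝓞 N), P.1.inertiaDeg ℤ * Nat.card (P.1.inertia G)
      = 𝔮.inertiaDeg ℤ * Nat.card G := by
  obtain ⟨P₀, hP₀, hP₀'⟩ := exists_maximal_ideal_liesOver_of_isIntegral (S := 𝓞 N) 𝔮
  let P : 𝔮.primesOver (𝓞 N) := ⟨P₀, hP₀.isPrime, hP₀'⟩
  have := P.2.1
  have := P.2.2
  have h1 : ∀ P' : 𝔮.primesOver (𝓞 N), P'.1.inertiaDeg ℤ * Nat.card (P'.1.inertia G)
      = 𝔮.inertiaDeg ℤ * P.1.inertiaDeg (𝓞 F) * Nat.card (P.1.inertia G) := by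
    intro P'
    obtain ⟨τ, hτ⟩ := exists_smul_eq' (G := G) 𝔮 P P'
    have := P'.2.2
    rw [inertiaDeg_tower (R := ℤ) 𝔮 P'.1, ← hτ, inertiaDeg_smul, card_inertia_smul]
  rw [Finset.sum_congr rfl fun P' _ => h1 P', Finset.sum_const, smul_eq_mul]
  have : Finite (𝓞 F ⧸ 𝔮) := Ideal.finiteQuotientOfFreeOfNeBot 𝔮 h𝔮
  have : Finite 𝔮.ResidueField :=
    Finite.of_surjective _ (Ideal.bijective_algebraMap_quotient_residueField 𝔮).2
  have h2 := ncard_primesOver_mul_card_inertia_mul_finrank (G := G) 𝔮 P.1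
  rw [← h2, Finset.card_univ, ← Nat.card_eq_fintype_card, Nat.card_coe_set_eq]
  ring

end frob

section prime

/-- The ideal of the integers generated by `p`. -/
abbrev sp (p : ℕ) : Ideal ℤ := Ideal.span {(p : ℤ)}

instance sp_maximal (p : ℕ) [hp : Fact p.Prime] : (sp p).IsMaximal :=
  Int.ideal_span_isMaximal_of_prime p

theorem sp_ne_bot (p : ℕ) [hp : Fact p.Prime] : sp p ≠ ⊥ := by
  rw [Ne, Ideal.span_singleton_eq_bot]
  exact_mod_cast hp.out.ne_zero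

variable {F : Type*} (N : Type*) [Field F] [NumberField F] [Field N] [NumberField N] [Algebra F N]
  {G : Type*} [Group G] [MulSemiringAction G N]

open scoped Classical in
/-- The weighted number of primes `P` above `p` with `f` congruent to the `p ^ j`-th power map
modulo `P`. -/
def Th (p j : ℕ) (f : 𝓞 N → 𝓞 N) : ℂ :=
  ∑ᶠ P : (sp p).primesOver (𝓞 N), if Fr P.1 (p ^ j) f then (P.1.inertiaDeg ℤ : ℂ) else 0

/-- The coefficients of the logarithm of an Artin `L`-function. -/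
def cc (ψ : G →* ℂˣ) (p j : ℕ) : ℂ :=
  (∑ᶠ g : G, Th N p j (g • ·) * ((ψ g : ℂˣ) : ℂ)) / Nat.card G

variable [Finite G] [IsGaloisGroup G F N]

theorem liesOver_sp_ne_bot {K : Type*} [Field K] [NumberField K] (p : ℕ) [Fact p.Prime]
    (𝔮 : Ideal (𝓞 K)) [𝔮.LiesOver (sp p)] : 𝔮 ≠ ⊥ :=
  ne_bot_of_liesOver_of_ne_bot (sp_ne_bot p) 𝔮

/-- The prime of `F` below a prime of `N`. -/
def below (p : ℕ) (P : (sp p).primesOver (𝓞 N)) : (sp p).primesOver (𝓞 F) :=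
  ⟨P.1.under (𝓞 F), by
    have := P.2.1
    infer_instance, by
    have := P.2.2
    exact LiesOver.tower_bot P.1 (P.1.under (𝓞 F)) (sp p)⟩

theorem maximal_of_primesOver (p : ℕ) [Fact p.Prime] (𝔮 : (sp p).primesOver (𝓞 F)) :
    𝔮.1.IsMaximal := by
  have := 𝔮.2.1
  have := 𝔮.2.2
  exact IsPrime.isMaximal inferInstance (liesOver_sp_ne_bot p 𝔮.1)

theorem absNorm_primesOver (p : ℕ) [Fact p.Prime] (𝔮 : (sp p).primesOver (𝓞 F)) :
    absNorm 𝔮.1 = p ^ 𝔮.1.inertiaDeg ℤ := by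
  have := 𝔮.2.1
  have := 𝔮.2.2
  exact (pow_inertiaDeg p 𝔮.1).symm

omit [Finite G] in
theorem dvd_of_fr (p : ℕ) [hp : Fact p.Prime] (j : ℕ) (P : (sp p).primesOver (𝓞 N)) (g : G)
    (h : Fr P.1 (p ^ j) (g • ·)) : (below (F := F) N p P).1.inertiaDeg ℤ ∣ j := by
  set 𝔮 := below (F := F) N p P with h𝔮
  have := maximal_of_primesOver p 𝔮
  have := 𝔮.2.2
  have : Finite (𝓞 F ⧸ 𝔮.1) :=
    Ideal.finiteQuotientOfFreeOfNeBot 𝔮.1 (liesOver_sp_ne_bot p 𝔮.1)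
  let _ : Field (𝓞 F ⧸ 𝔮.1) := Ideal.Quotient.field 𝔮.1
  refine dvd_of_pow_eq (k := 𝓞 F ⧸ 𝔮.1) p _ j hp.out ?_ ?_
  · rw [← absNorm_primesOver p 𝔮]
    rfl
  · intro x
    obtain ⟨x, rfl⟩ := Ideal.Quotient.mk_surjective x
    rw [← map_pow, eq_comm, Ideal.Quotient.eq]
    have h1 := h (algebraMap (𝓞 F) (𝓞 N) x)
    have h2 : g • algebraMap (𝓞 F) (𝓞 N) x = algebraMap (𝓞 F) (𝓞 N) x := smul_algebraMap g x
    simp only [h2] at h1
    rw [← map_pow, ← map_sub] at h1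
    exact h1

theorem cc_eq (ψ : G →* ℂˣ) (p : ℕ) [hp : Fact p.Prime] (j : ℕ) (hj : j ≠ 0) :
    cc N ψ p j = ∑ 𝔮 : (sp p).primesOver (𝓞 F), if 𝔮.1.inertiaDeg ℤ ∣ j then
      (𝔮.1.inertiaDeg ℤ : ℂ) * frobAvg N ψ 𝔮.1 ^ (j / 𝔮.1.inertiaDeg ℤ) else 0 := by
  classical
  have := Fintype.ofFinite G
  have hG : (Nat.card G : ℂ) ≠ 0 := by exact_mod_cast Nat.card_pos.ne'
  have h1 : (∑ᶠ g : G, Th N p j (g • ·) * ((ψ g : ℂˣ) : ℂ)) =
      ∑ P : (sp p).primesOver (𝓞 N), (P.1.inertiaDeg ℤ : ℂ) * SP ψ P.1 (p ^ j) := by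
    rw [finsum_eq_sum_of_fintype]
    unfold Th SP
    simp only [finsum_eq_sum_of_fintype]
    simp_rw [Finset.sum_mul, Finset.mul_sum]
    rw [Finset.sum_comm]
    refine Finset.sum_congr rfl fun P _ => Finset.sum_congr rfl fun g _ => ?_
    split_ifs <;> simp
  rw [cc, h1, div_eq_iff hG, Finset.sum_mul,
    ← Finset.sum_fiberwise (Finset.univ : Finset ((sp p).primesOver (𝓞 N)))
      (fun P => below (F := F) N p P)]
  refine Finset.sum_congr rfl fun 𝔮 _ => ?_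
  have h𝔮m := maximal_of_primesOver p 𝔮
  have h𝔮l := 𝔮.2.2
  have h𝔮0 : 𝔮.1 ≠ ⊥ := liesOver_sp_ne_bot p 𝔮.1
  split_ifs with hdvd
  · obtain ⟨k, rfl⟩ := hdvd
    have hf : 𝔮.1.inertiaDeg ℤ ≠ 0 := fun h => hj (by rw [h, zero_mul])
    have hk : k ≠ 0 := fun h => hj (by rw [h, mul_zero])
    rw [Nat.mul_div_cancel_left _ (Nat.pos_of_ne_zero hf)]
    have h2 : ∑ P ∈ Finset.univ.filter (fun P => below (F := F) N p P = 𝔮),
        (P.1.inertiaDeg ℤ : ℂ) * SP ψ P.1 (p ^ (𝔮.1.inertiaDeg ℤ * k)) =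
        ∑ P : 𝔮.1.primesOver (𝓞 N), (P.1.inertiaDeg ℤ : ℂ) *
          (Nat.card (P.1.inertia G) * frobAvg N ψ 𝔮.1 ^ k) := by
      refine Finset.sum_bij' (fun P hP => ⟨P.1, P.2.1, ⟨?_⟩⟩)
        (fun P _ => ⟨P.1, P.2.1, ?_⟩) ?_ ?_ ?_ ?_ ?_
      · rw [Finset.mem_filter] at hP
        rw [← hP.2]
        rfl
      · have := P.2.2
        exact LiesOver.trans P.1 𝔮.1 (sp p)
      · intro P hP
        exact Finset.mem_univ _
      · intro P _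
        rw [Finset.mem_filter]
        refine ⟨Finset.mem_univ _, Subtype.ext ?_⟩
        have := P.2.2
        exact (over_def P.1 𝔮.1).symm
      · intro P _
        rfl
      · intro P _
        rfl
      · intro P hP
        rw [Finset.mem_filter] at hP
        have hl : P.1.LiesOver 𝔮.1 := ⟨by rw [← hP.2]; rfl⟩
        have h3 := SP_pow_frobAvg (N := N) ψ 𝔮.1 h𝔮0 ⟨P.1, P.2.1, hl⟩ k hk
        rw [absNorm_primesOver p 𝔮, ← pow_mul] at h3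
        simp only
        rw [h3]
    rw [h2]
    have h4 := sum_weights (G := G) (N := N) 𝔮.1 h𝔮0
    have h5 := congrArg (fun n : ℕ => (n : ℂ)) h4
    push_cast at h5
    calc ∑ P : 𝔮.1.primesOver (𝓞 N), (P.1.inertiaDeg ℤ : ℂ) *
          (Nat.card (P.1.inertia G) * frobAvg N ψ 𝔮.1 ^ k)
        = (∑ P : 𝔮.1.primesOver (𝓞 N), (P.1.inertiaDeg ℤ : ℂ) * Nat.card (P.1.inertia G)) *
            frobAvg N ψ 𝔮.1 ^ k := by
          rw [Finset.sum_mul]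
          exact Finset.sum_congr rfl fun P _ => by ring
      _ = _ := by
          rw [h5]
          ring
  · rw [zero_mul]
    refine Finset.sum_eq_zero fun P hP => ?_
    rw [Finset.mem_filter] at hP
    have h2 : SP ψ P.1 (p ^ j) = 0 := by
      unfold SP
      rw [finsum_eq_sum_of_fintype]
      refine Finset.sum_eq_zero fun g _ => if_neg fun h => hdvd ?_
      rw [← hP.2]
      exact dvd_of_fr N p j P g h
    rw [h2, mul_zero]

end prime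

end

end Pool.Agent.Helper70.Art
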