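import Mathlib

/-!
# Euler products over the primes of a Dedekind domain
-/

set_option autoImplicit false

open Filter Topology IsDedekindDomain

namespace Pool.Agent.Helper70.Art

noncomputable section

section general

variable {R : Type*} [CommRing R] [IsDedekindDomain R]

/-- The nonzero ideals with all prime factors in `T`. -/
def IS (T : Finset (HeightOneSpectrum R)) : Set (Ideal R) :=
  {I | I ≠ ⊥ ∧ ∀ 𝔮 : HeightOneSpectrum R, 𝔮.asIdeal ∣ I → 𝔮 ∈ T}

theorem IS_empty : IS (∅ : Finset (HeightOneSpectrum R)) = {1} := by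
  ext I
  constructor
  · rintro ⟨h1, h2⟩
    by_contra h3
    have h4 : I ≠ ⊤ := fun h => h3 (by rw [h, Set.mem_singleton_iff, Ideal.one_eq_top])
    obtain ⟨M, hM, hIM⟩ := Ideal.exists_le_maximal I h4
    have hM0 : M ≠ ⊥ := fun h => h1 (le_bot_iff.1 (h ▸ hIM))
    have := h2 ⟨M, hM.isPrime, hM0⟩ (Ideal.dvd_iff_le.2 hIM)
    simp at this
  · rintro rfl
    refine ⟨by simp, fun 𝔮 h => ?_⟩
    have := Ideal.dvd_iff_le.1 h
    rw [Ideal.one_eq_top, top_le_iff] at this
    exact absurd this 𝔮.isPrime.ne_top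

theorem pow_mul_mem_IS (T : Finset (HeightOneSpectrum R)) [DecidableEq (HeightOneSpectrum R)]
    (𝔮 : HeightOneSpectrum R) (k : ℕ) (J : Ideal R) (hJ : J ∈ IS T) :
    𝔮.asIdeal ^ k * J ∈ IS (insert 𝔮 T) := by
  refine ⟨mul_ne_zero (pow_ne_zero _ 𝔮.ne_bot) hJ.1, fun 𝔯 h => ?_⟩
  rw [Finset.mem_insert]
  rcases (Ideal.prime_of_isPrime 𝔯.ne_bot 𝔯.isPrime).dvd_or_dvd h with h1 | h1
  · left
    have h2 := (Ideal.prime_of_isPrime 𝔯.ne_bot 𝔯.isPrime).dvd_of_dvd_pow h1
    have h3 := Ideal.dvd_iff_le.1 h2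
    exact HeightOneSpectrum.ext (𝔮.isMaximal.eq_of_le 𝔯.isPrime.ne_top h3).symm
  · right
    exact hJ.2 𝔯 h1

theorem IS_bij (T : Finset (HeightOneSpectrum R)) [DecidableEq (HeightOneSpectrum R)]
    (𝔮 : HeightOneSpectrum R) (h𝔮 : 𝔮 ∉ T) :
    Function.Bijective (fun z : ℕ × IS T =>
      (⟨𝔮.asIdeal ^ z.1 * z.2.1, pow_mul_mem_IS T 𝔮 z.1 z.2.1 z.2.2⟩ :
        IS (insert 𝔮 T))) := by
  have hp : Prime 𝔮.asIdeal := Ideal.prime_of_isPrime 𝔮.ne_bot 𝔮.isPrime
  constructor
  · rintro ⟨k, J, hJ⟩ ⟨l, J', hJ'⟩ h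
    have h1 : 𝔮.asIdeal ^ k * J = 𝔮.asIdeal ^ l * J' := congrArg Subtype.val h
    have hJn : ¬ 𝔮.asIdeal ∣ J := fun h => h𝔮 (hJ.2 𝔮 h)
    have hJn' : ¬ 𝔮.asIdeal ∣ J' := fun h => h𝔮 (hJ'.2 𝔮 h)
    have key : ∀ (k l : ℕ) (J J' : Ideal R), 𝔮.asIdeal ^ k * J = 𝔮.asIdeal ^ l * J' →
        ¬ 𝔮.asIdeal ∣ J' → k ≤ l := by
      intro k l J J' h h'
      by_contra hlt
      push Not at hlt
      obtain ⟨d, rfl⟩ := Nat.exists_eq_add_of_lt hlt
      have h2 : 𝔮.asIdeal ^ l * (𝔮.asIdeal ^ (d + 1) * J) = 𝔮.asIdeal ^ l * J' := by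
        rw [← h, ← mul_assoc, ← pow_add]
        rfl
      have h3 := mul_left_cancel₀ (pow_ne_zero _ hp.ne_zero) h2
      apply h'
      rw [← h3, pow_succ', mul_assoc]
      exact Dvd.intro _ rfl
    have h2 : k = l := le_antisymm (key k l J J' h1 hJn') (key l k J' J h1.symm hJn)
    subst h2
    have h3 := mul_left_cancel₀ (pow_ne_zero _ hp.ne_zero) h1
    subst h3
    rfl
  · rintro ⟨I, hI⟩
    have hfin : FiniteMultiplicity 𝔮.asIdeal I :=
      FiniteMultiplicity.of_prime_left hp hI.1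
    obtain ⟨J, hJ, hnd⟩ := hfin.exists_eq_pow_mul_and_not_dvd
    refine ⟨⟨multiplicity 𝔮.asIdeal I, J, ?_, ?_⟩, ?_⟩
    · rintro rfl
      exact hI.1 (by rw [hJ]; exact mul_zero _)
    · intro 𝔯 h𝔯
      have h1 : 𝔯.asIdeal ∣ I := by
        rw [hJ]
        exact h𝔯.mul_left _
      have h2 := hI.2 𝔯 h1
      rw [Finset.mem_insert] at h2
      rcases h2 with rfl | h2
      · exact absurd h𝔯 hnd
      · exact h2
    · exact Subtype.ext hJ.symm

variable (f : Ideal R →*₀ ℂ) (hf : Summable fun I => ‖f I‖)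

include hf

theorem norm_lt_one (𝔮 : HeightOneSpectrum R) : ‖f 𝔮.asIdeal‖ < 1 := by
  have hp : Prime 𝔮.asIdeal := Ideal.prime_of_isPrime 𝔮.ne_bot 𝔮.isPrime
  have hinj : Function.Injective fun k : ℕ => 𝔮.asIdeal ^ k :=
    (Ideal.pow_right_strictAnti 𝔮.asIdeal 𝔮.ne_bot 𝔮.isPrime.ne_top).injective
  have h1 : Summable fun k : ℕ => ‖f 𝔮.asIdeal‖ ^ k := by
    refine (hf.comp_injective hinj).congr fun k => ?_
    simp [map_pow, norm_pow]
  have h2 := summable_geometric_iff_norm_lt_one.1 h1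
  simpa using h2

theorem tsum_IS (T : Finset (HeightOneSpectrum R)) :
    ∑' I : IS T, f I = ∏ 𝔮 ∈ T, (1 - f 𝔮.asIdeal)⁻¹ := by
  classical
  induction T using Finset.induction_on with
  | empty =>
    rw [Finset.prod_empty, IS_empty]
    rw [tsum_singleton (1 : Ideal R) f, map_one]
  | insert 𝔮 T h𝔮 ih =>
    rw [Finset.prod_insert h𝔮, ← ih, ← (Equiv.ofBijective _ (IS_bij T 𝔮 h𝔮)).tsum_eq]
    have h1 := norm_lt_one f hf 𝔮
    rw [← tsum_geometric_of_norm_lt_one h1, tsum_mul_tsum_of_summable_norm]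
    · refine tsum_congr fun z => ?_
      simp [map_mul, map_pow]
    · simpa [norm_pow] using summable_geometric_of_lt_one (norm_nonneg _) h1
    · exact hf.comp_injective Subtype.val_injective

theorem hasProd_euler : HasProd (fun 𝔮 : HeightOneSpectrum R => (1 - f 𝔮.asIdeal)⁻¹)
    (∑' I, f I) := by
  classical
  unfold HasProd
  simp only [SummationFilter.unconditional_filter]
  have h1 : Tendsto (fun T : Finset (HeightOneSpectrum R) =>
      ∑' I, Set.indicator (IS T) f I) atTop (𝓝 (∑' I, f I)) := by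
    refine tendsto_tsum_of_dominated_convergence hf ?_ ?_
    · intro I
      by_cases hI : I = ⊥
      · subst hI
        have h2 : ∀ T : Finset (HeightOneSpectrum R), Set.indicator (IS T) f ⊥ = f ⊥ := by
          intro T
          have : f ⊥ = 0 := map_zero f
          rw [this]
          refine Set.indicator_of_notMem (fun h => h.1 rfl) _
        simp only [h2]
        exact tendsto_const_nhds
      · have hfin : {v : HeightOneSpectrum R | v.asIdeal ∣ I}.Finite := Ideal.finite_factors hI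
        refine tendsto_const_nhds.congr' ?_
        filter_upwards [eventually_ge_atTop hfin.toFinset] with T hT
        symm
        refine Set.indicator_of_mem ?_ _
        refine ⟨hI, fun 𝔮 h𝔮 => hT ?_⟩
        rw [Set.Finite.mem_toFinset]
        exact h𝔮
    · refine Eventually.of_forall fun T I => ?_
      exact norm_indicator_le_norm_self _ _
  refine h1.congr fun T => ?_
  rw [← tsum_subtype, tsum_IS f hf T]

end general

end

end Pool.Agent.Helper70.Art
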