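import Pool.Agent.Helper70.Art.AtPrime
import Pool.Agent.Helper70.Art.Zeta

/-!
# The `L`-functions of characters of degree one
-/

set_option autoImplicit false

open Filter Topology IsDedekindDomain NumberField Ideal

open scoped Pointwise

namespace Pool.Agent.Helper70.Art

noncomputable section

section def_

variable (F N : Type*) [Field F] [NumberField F] [Field N] [NumberField N] [Algebra F N]
  {G : Type*} [Group G] [MulSemiringAction G N]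

/-- The Artin `L`-function of a character `ψ` of degree one of the Galois group `G` of `N/F`,
as the Euler product over all the nonzero primes of `F`. -/
def artinL (ψ : G →* ℂˣ) (s : ℂ) : ℂ :=
  ∏' 𝔮 : HeightOneSpectrum (𝓞 F),
    (1 - frobAvg N ψ 𝔮.asIdeal * ((absNorm 𝔮.asIdeal : ℕ) : ℂ) ^ (-s))⁻¹

end def_

section

variable {F : Type*} (N : Type*) [Field F] [NumberField F] [Field N] [NumberField N] [Algebra F N]
  {G : Type*} [Group G] [MulSemiringAction G N] [Finite G] [IsGaloisGroup G F N]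

theorem norm_units_eq_one (ψ : G →* ℂˣ) (g : G) : ‖((ψ g : ℂˣ) : ℂ)‖ = 1 := by
  have h1 : ψ g ^ Nat.card G = 1 := by rw [← map_pow, pow_card_eq_one', map_one]
  have h2 : ((ψ g : ℂˣ) : ℂ) ^ Nat.card G = 1 := by
    rw [← Units.val_pow_eq_pow_val, h1, Units.val_one]
  exact Complex.norm_eq_one_of_pow_eq_one h2 Nat.card_pos.ne'

theorem frobAvg_cases (ψ : G →* ℂˣ) (𝔮 : Ideal (𝓞 F)) [h𝔮m : 𝔮.IsMaximal] (h𝔮 : 𝔮 ≠ ⊥) :
    ∃ (P : 𝔮.primesOver (𝓞 N)) (φ : G), Fr P.1 (absNorm 𝔮) (φ • ·) ∧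
      frobAvg N ψ 𝔮 = aI ψ P.1 * ((ψ φ : ℂˣ) : ℂ) := by
  obtain ⟨P₀, hP₀, hP₀'⟩ := exists_maximal_ideal_liesOver_of_isIntegral (S := 𝓞 N) 𝔮
  let P : 𝔮.primesOver (𝓞 N) := ⟨P₀, hP₀.isPrime, hP₀'⟩
  have := P.2.1
  have := P.2.2
  obtain ⟨φ, hφ⟩ := exists_fr (G := G) 𝔮 h𝔮 P.1
  refine ⟨P, φ, hφ, ?_⟩
  have hN : (Nat.card (P.1.inertia G) : ℂ) ≠ 0 := by exact_mod_cast Nat.card_pos.ne'
  rw [frobAvg_eq ψ 𝔮 h𝔮 P, SP_eq ψ P.1 _ φ hφ, mul_div_cancel_left₀ _ hN]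

theorem norm_frobAvg_le (ψ : G →* ℂˣ) (𝔮 : Ideal (𝓞 F)) [𝔮.IsMaximal] (h𝔮 : 𝔮 ≠ ⊥) :
    ‖frobAvg N ψ 𝔮‖ ≤ 1 := by
  obtain ⟨P, φ, -, h⟩ := frobAvg_cases N ψ 𝔮 h𝔮
  rw [h, norm_mul, norm_units_eq_one, mul_one]
  rcases aI_cases ψ P.1 with h | h <;> simp [h]

theorem frobAvg_one (𝔮 : Ideal (𝓞 F)) [𝔮.IsMaximal] (h𝔮 : 𝔮 ≠ ⊥) :
    frobAvg N (1 : G →* ℂˣ) 𝔮 = 1 := by
  obtain ⟨P, φ, -, h⟩ := frobAvg_cases N (1 : G →* ℂˣ) 𝔮 h𝔮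
  rw [h, aI_one]
  simp

theorem artinL_one (s : ℂ) (hs : 1 < s.re) :
    artinL F N (1 : G →* ℂˣ) s = dedekindZeta F s := by
  unfold artinL
  rw [← (dedekindZeta_hasProd F s hs).tprod_eq]
  refine tprod_congr fun 𝔮 => ?_
  have := 𝔮.isMaximal
  rw [frobAvg_one N 𝔮.asIdeal 𝔮.ne_bot, one_mul]

/-- The terms `w N(𝔮)^(-s)`. -/
def zt (ψ : G →* ℂˣ) (s : ℂ) (𝔮 : Ideal (𝓞 F)) : ℂ :=
  frobAvg N ψ 𝔮 * ((absNorm 𝔮 : ℕ) : ℂ) ^ (-s)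

theorem norm_zt_le (ψ : G →* ℂˣ) (s : ℂ) (𝔮 : Ideal (𝓞 F)) [𝔮.IsMaximal] (h𝔮 : 𝔮 ≠ ⊥) :
    ‖zt N ψ s 𝔮‖ ≤ ‖((absNorm 𝔮 : ℕ) : ℂ) ^ (-s)‖ := by
  unfold zt
  rw [norm_mul]
  exact mul_le_of_le_one_left (norm_nonneg _) (norm_frobAvg_le N ψ 𝔮 h𝔮)

theorem norm_zt_lt (ψ : G →* ℂˣ) (s : ℂ) (hs : 1 < s.re) (𝔮 : Ideal (𝓞 F)) [𝔮.IsMaximal]
    (h𝔮 : 𝔮 ≠ ⊥) : ‖zt N ψ s 𝔮‖ < 1 := by
  refine (norm_zt_le N ψ s 𝔮 h𝔮).trans_lt ?_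
  exact norm_lt_one (nf F s (ne_zero_of_re hs)) (summable_nf F s hs)
    ⟨𝔮, inferInstance, h𝔮⟩

theorem summable_zt (ψ : G →* ℂˣ) (s : ℂ) (hs : 1 < s.re) :
    Summable fun 𝔮 : HeightOneSpectrum (𝓞 F) => zt N ψ s 𝔮.asIdeal := by
  refine Summable.of_norm_bounded (summable_primes F s hs) fun 𝔮 => ?_
  have := 𝔮.isMaximal
  exact norm_zt_le N ψ s 𝔮.asIdeal 𝔮.ne_bot

/-- The logarithm of the `L`-function. -/
def logL (ψ : G →* ℂˣ) (s : ℂ) : ℂ :=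
  ∑' 𝔮 : HeightOneSpectrum (𝓞 F), -Complex.log (1 - zt N ψ s 𝔮.asIdeal)

theorem hasSum_logL (ψ : G →* ℂˣ) (s : ℂ) (hs : 1 < s.re) :
    HasSum (fun 𝔮 : HeightOneSpectrum (𝓞 F) => -Complex.log (1 - zt N ψ s 𝔮.asIdeal))
      (logL (F := F) N ψ s) :=
  (summable_zt (F := F) N ψ s hs).clog_one_sub.neg.hasSum

theorem artinL_eq_exp (ψ : G →* ℂˣ) (s : ℂ) (hs : 1 < s.re) :
    artinL F N ψ s = Complex.exp (logL (F := F) N ψ s) := by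
  have h1 := (hasSum_logL (F := F) N ψ s hs).cexp
  unfold artinL
  rw [← h1.tprod_eq]
  refine tprod_congr fun 𝔮 => ?_
  have := 𝔮.isMaximal
  have h2 : 1 - zt N ψ s 𝔮.asIdeal ≠ 0 := by
    intro h
    have h3 := norm_zt_lt N ψ s hs 𝔮.asIdeal 𝔮.ne_bot
    rw [← sub_eq_zero.1 h] at h3
    simp at h3
  rw [Function.comp_apply, Complex.exp_neg, Complex.exp_log h2]
  rfl

/-- The part of the logarithm above `p`. -/
def SL (ψ : G →* ℂˣ) (s : ℂ) (p : ℕ) : ℂ :=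
  ∑ᶠ 𝔮 : (sp p).primesOver (𝓞 F), -Complex.log (1 - zt N ψ s 𝔮.1)

/-- The map from pairs of a prime number and a prime above to primes. -/
def regr : (Σ p : Nat.Primes, (sp (p : ℕ)).primesOver (𝓞 F)) → HeightOneSpectrum (𝓞 F) :=
  fun z => ⟨z.2.1, z.2.2.1, by
    have : Fact (z.1 : ℕ).Prime := ⟨z.1.2⟩
    have := z.2.2.2
    exact liesOver_sp_ne_bot (z.1 : ℕ) z.2.1⟩

theorem regr_bij : Function.Bijective (regr (F := F)) := by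
  constructor
  · rintro ⟨p, 𝔮, h𝔮⟩ ⟨p', 𝔮', h𝔮'⟩ h
    have h1 : 𝔮 = 𝔮' := congrArg HeightOneSpectrum.asIdeal h
    subst h1
    have h2 : sp (p : ℕ) = sp (p' : ℕ) := by
      have := h𝔮.2
      have := h𝔮'.2
      rw [over_def 𝔮 (sp (p : ℕ)), over_def 𝔮 (sp (p' : ℕ))]
    have h3 : (p : ℕ) = (p' : ℕ) := by
      have := congrArg absNorm h2
      simpa using this
    have h4 : p = p' := Subtype.ext h3
    subst h4
    rfl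
  · intro 𝔮
    have := 𝔮.isPrime
    have : NeZero 𝔮.asIdeal := ⟨𝔮.ne_bot⟩
    have h1 := Nat.absNorm_under_prime 𝔮.asIdeal
    refine ⟨⟨⟨_, h1⟩, ⟨𝔮.asIdeal, 𝔮.isPrime, ?_⟩⟩, rfl⟩
    exact Int.liesOver_span_absNorm 𝔮.asIdeal

theorem hasSum_SL (ψ : G →* ℂˣ) (s : ℂ) (hs : 1 < s.re) :
    HasSum (fun p : Nat.Primes => SL (F := F) N ψ s p) (logL (F := F) N ψ s) := by
  have h1 := hasSum_logL (F := F) N ψ s hs
  rw [← (Equiv.ofBijective _ (regr_bij (F := F))).hasSum_iff] at h1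
  refine h1.sigma fun p => ?_
  have : Fact (p : ℕ).Prime := ⟨p.2⟩
  unfold SL
  rw [finsum_eq_sum_of_fintype]
  exact hasSum_fintype _

theorem hasSum_one (ψ : G →* ℂˣ) (s : ℂ) (hs : 1 < s.re) (p : ℕ) [hp : Fact p.Prime]
    (𝔮 : (sp p).primesOver (𝓞 F)) :
    HasSum (fun j : ℕ => (if 𝔮.1.inertiaDeg ℤ ∣ j then
      (𝔮.1.inertiaDeg ℤ : ℂ) * frobAvg N ψ 𝔮.1 ^ (j / 𝔮.1.inertiaDeg ℤ) else 0) *
        (((p : ℂ) ^ (-s)) ^ j / j)) (-Complex.log (1 - zt N ψ s 𝔮.1)) := by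
  have h𝔮m := maximal_of_primesOver p 𝔮
  have h𝔮l := 𝔮.2.2
  have h𝔮0 : 𝔮.1 ≠ ⊥ := liesOver_sp_ne_bot p 𝔮.1
  have h1 := Complex.hasSum_taylorSeries_neg_log (norm_zt_lt N ψ s hs 𝔮.1 h𝔮0)
  have hf : 𝔮.1.inertiaDeg ℤ ≠ 0 := by
    intro h
    have h2 := absNorm_primesOver p 𝔮
    rw [h, pow_zero] at h2
    exact h𝔮m.ne_top (absNorm_eq_one_iff.1 h2)
  set f := 𝔮.1.inertiaDeg ℤ with hfdef
  have hinj : Function.Injective fun k : ℕ => f * k :=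
    fun a b h => Nat.eq_of_mul_eq_mul_left (Nat.pos_of_ne_zero hf) h
  rw [← hinj.hasSum_iff]
  · have h2 : ∀ k : ℕ, zt N ψ s 𝔮.1 ^ k / k = ((fun j : ℕ => (if f ∣ j then
      (f : ℂ) * frobAvg N ψ 𝔮.1 ^ (j / f) else 0) *
        (((p : ℂ) ^ (-s)) ^ j / j)) ∘ fun k : ℕ => f * k) k := by
      intro k
      simp only [Function.comp_apply, dvd_mul_right, if_true]
      rw [Nat.mul_div_cancel_left _ (Nat.pos_of_ne_zero hf)]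
      have hfc : (f : ℂ) ≠ 0 := Nat.cast_ne_zero.2 hf
      have h3 : zt N ψ s 𝔮.1 = frobAvg N ψ 𝔮.1 * ((p : ℂ) ^ (-s)) ^ f := by
        unfold zt
        rw [absNorm_primesOver p 𝔮]
        push_cast
        rw [← Complex.cpow_nat_mul, ← Complex.natCast_cpow_natCast_mul]
      rw [h3, mul_pow, ← pow_mul]
      rcases eq_or_ne k 0 with rfl | hk
      · simp
      · have hkc : (k : ℂ) ≠ 0 := Nat.cast_ne_zero.2 hk
        push_cast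
        field_simp
    simp_rw [h2] at h1
    exact h1
  · intro j hj
    rw [if_neg, zero_mul]
    rintro ⟨k, rfl⟩
    exact hj ⟨k, rfl⟩

/-- The sum of the contributions above `p`. -/
theorem hasSum_local (ψ : G →* ℂˣ) (s : ℂ) (hs : 1 < s.re) (p : ℕ) [hp : Fact p.Prime] :
    HasSum (fun j : ℕ => cc N ψ p j * (((p : ℂ) ^ (-s)) ^ j / j)) (SL (F := F) N ψ s p) := by
  unfold SL
  rw [finsum_eq_sum_of_fintype]
  have h1 := hasSum_sum (s := Finset.univ) fun (𝔮 : (sp p).primesOver (𝓞 F)) _ =>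
    hasSum_one N ψ s hs p 𝔮
  have h2 : ∀ j : ℕ, cc N ψ p j * (((p : ℂ) ^ (-s)) ^ j / j) =
      ∑ 𝔮 : (sp p).primesOver (𝓞 F), (if 𝔮.1.inertiaDeg ℤ ∣ j then
      (𝔮.1.inertiaDeg ℤ : ℂ) * frobAvg N ψ 𝔮.1 ^ (j / 𝔮.1.inertiaDeg ℤ) else 0) *
        (((p : ℂ) ^ (-s)) ^ j / j) := by
    intro j
    rcases eq_or_ne j 0 with rfl | hj
    · simp
    · rw [cc_eq (F := F) N ψ p j hj, Finset.sum_mul]
  simp_rw [h2]
  exact h1

end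

end

end Pool.Agent.Helper70.Art
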