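import Mathlib

/-!
# Frobenius sums at a prime
-/

set_option autoImplicit false

open Ideal

open scoped Pointwise

namespace Pool.Agent.Helper70.Art

noncomputable section

/-- The map `f` is congruent to the `m`-th power map modulo `P`. -/
def Fr {B : Type*} [CommRing B] (P : Ideal B) (m : ℕ) (f : B → B) : Prop :=
  ∀ x, f x - x ^ m ∈ P

theorem dvd_of_pow_eq {k : Type*} [Field k] [Finite k] (p f j : ℕ) (hp : p.Prime)
    (hcard : Nat.card k = p ^ f) (h : ∀ x : k, x ^ p ^ j = x) : f ∣ j := by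
  classical
  have := Fintype.ofFinite k
  have h1 : p ^ f - 1 ∣ p ^ j - 1 := by
    obtain ⟨g, hg⟩ := IsCyclic.exists_ofOrder_eq_natCard (α := kˣ)
    have h2 : Nat.card kˣ = p ^ f - 1 := by
      rw [Nat.card_eq_fintype_card, Fintype.card_units, ← Nat.card_eq_fintype_card, hcard]
    rw [← h2, ← hg]
    refine orderOf_dvd_of_pow_eq_one ?_
    have h3 := h (g : k)
    have h4 : 1 ≤ p ^ j := Nat.one_le_pow _ _ hp.pos
    have h5 : g ^ (p ^ j) = g := Units.ext (by simpa using h3)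
    have h6 : g ^ (p ^ j - 1) * g = 1 * g := by
      rw [← pow_succ, Nat.sub_add_cancel h4, h5, one_mul]
    exact mul_right_cancel h6
  have h3 := Nat.pow_sub_one_gcd_pow_sub_one p f j
  rw [Nat.gcd_eq_left h1] at h3
  have h4 : p ^ f = p ^ (f.gcd j) := by
    have e1 : 1 ≤ p ^ f := Nat.one_le_pow _ _ hp.pos
    have e2 : 1 ≤ p ^ f.gcd j := Nat.one_le_pow _ _ hp.pos
    omega
  have h5 := Nat.pow_right_injective hp.two_le h4
  rw [h5]
  exact Nat.gcd_dvd_right f j

section group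

variable {B G : Type*} [CommRing B] [Group G] [MulSemiringAction G B]

theorem fr_pow {P : Ideal B} {q : ℕ} {φ : G} (h : Fr P q (φ • ·)) (k : ℕ) :
    Fr P (q ^ k) (φ ^ k • ·) := by
  induction k with
  | zero => intro x; simp
  | succ k ih =>
    intro x
    have h1 := h (φ ^ k • x)
    have h2 := ih x
    have h3 : (φ ^ k • x) ^ q - (x ^ q ^ k) ^ q ∈ P := by
      have := sub_dvd_pow_sub_pow (φ ^ k • x) (x ^ q ^ k) q
      exact P.mem_of_dvd this h2
    have h4 : φ ^ (k + 1) • x - x ^ q ^ (k + 1)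
        = (φ • (φ ^ k • x) - (φ ^ k • x) ^ q) + ((φ ^ k • x) ^ q - (x ^ q ^ k) ^ q) := by
      rw [pow_succ' φ, mul_smul, ← pow_mul, ← pow_succ]
      ring
    change φ ^ (k + 1) • x - x ^ q ^ (k + 1) ∈ P
    rw [h4]
    exact P.add_mem h1 h3

theorem fr_iff {P : Ideal B} {m : ℕ} {g₀ : G} (h : Fr P m (g₀ • ·)) (g : G) :
    Fr P m (g • ·) ↔ g * g₀⁻¹ ∈ P.inertia G := by
  constructor
  · intro hg x
    have h1 := hg (g₀⁻¹ • x)
    have h2 := h (g₀⁻¹ • x)
    simp only [smul_inv_smul] at h2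
    have h3 := P.sub_mem h1 h2
    have h4 : (g * g₀⁻¹) • x - x = (g • g₀⁻¹ • x - (g₀⁻¹ • x) ^ m) - (x - (g₀⁻¹ • x) ^ m) := by
      rw [mul_smul]
      ring
    rw [h4]
    exact h3
  · intro hg x
    have h1 := hg (g₀ • x)
    have h2 := h x
    have h3 : (g * g₀⁻¹) • g₀ • x = g • x := by
      rw [← mul_smul]
      simp
    rw [h3] at h1
    have h4 : g • x - x ^ m = (g • x - g₀ • x) + (g₀ • x - x ^ m) := by ring
    change g • x - x ^ m ∈ P
    rw [h4]
    exact P.add_mem h1 h2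

theorem fr_conj {P : Ideal B} {m : ℕ} (g τ : G) :
    Fr (τ • P) m ((τ * g * τ⁻¹) • ·) ↔ Fr P m (g • ·) := by
  constructor
  · intro h x
    have h1 := h (τ • x)
    rw [← Ideal.smul_mem_pointwise_smul_iff (a := τ)]
    have h2 : τ • (g • x - x ^ m) = (τ * g * τ⁻¹) • τ • x - (τ • x) ^ m := by
      rw [smul_sub, smul_pow', mul_smul, mul_smul, inv_smul_smul]
    rw [h2]
    exact h1
  · intro h x
    have h1 := h (τ⁻¹ • x)
    rw [← Ideal.smul_mem_pointwise_smul_iff (a := τ)] at h1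
    have h2 : τ • (g • τ⁻¹ • x - (τ⁻¹ • x) ^ m) = (τ * g * τ⁻¹) • x - x ^ m := by
      rw [smul_sub, smul_pow', smul_inv_smul, mul_smul, mul_smul]
    rw [h2] at h1
    exact h1

end group

section sums

variable {B G : Type*} [CommRing B] [Group G] [MulSemiringAction G B] [Finite G]

open scoped Classical in
/-- The sum of `ψ` over the elements acting as the `m`-th power map modulo `P`. -/
def SP (ψ : G →* ℂˣ) (P : Ideal B) (m : ℕ) : ℂ :=
  ∑ᶠ g : G, if Fr P m (g • ·) then ((ψ g : ℂˣ) : ℂ) else 0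

theorem SP_smul (ψ : G →* ℂˣ) (P : Ideal B) (m : ℕ) (τ : G) : SP ψ (τ • P) m = SP ψ P m := by
  classical
  have := Fintype.ofFinite G
  unfold SP
  rw [finsum_eq_sum_of_fintype, finsum_eq_sum_of_fintype,
    ← Equiv.sum_comp (MulAut.conj τ).toEquiv]
  refine Finset.sum_congr rfl fun g _ => ?_
  have e1 : (MulAut.conj τ).toEquiv g = τ * g * τ⁻¹ := rfl
  have e2 : ψ (τ * g * τ⁻¹) = ψ g := by
    rw [map_mul, map_mul, mul_comm (ψ τ), mul_assoc, ← map_mul, mul_inv_cancel, map_one, mul_one]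
  rw [e1, e2]
  simp only [fr_conj]

open scoped Classical in
/-- The number of elements acting as the `m`-th power map modulo `P`. -/
def NP (G : Type*) [Group G] [MulSemiringAction G B] (P : Ideal B) (m : ℕ) : ℂ :=
  ∑ᶠ g : G, if Fr P m ((g : G) • ·) then (1 : ℂ) else 0

omit [Finite G] in
theorem NP_eq (P : Ideal B) (m : ℕ) : NP G P m = SP (1 : G →* ℂˣ) P m := by
  unfold NP SP
  simp

/-- The value of `ψ` on the inertia group, as an average. -/
def aI (ψ : G →* ℂˣ) (P : Ideal B) : ℂ :=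
  (∑ᶠ g : P.inertia G, ((ψ g : ℂˣ) : ℂ)) / Nat.card (P.inertia G)

theorem SP_eq (ψ : G →* ℂˣ) (P : Ideal B) (m : ℕ) (g₀ : G) (h : Fr P m (g₀ • ·)) :
    SP ψ P m = Nat.card (P.inertia G) * (aI ψ P * ((ψ g₀ : ℂˣ) : ℂ)) := by
  classical
  have := Fintype.ofFinite G
  have := Fintype.ofFinite (P.inertia G)
  have hN : (Nat.card (P.inertia G) : ℂ) ≠ 0 := by exact_mod_cast Nat.card_pos.ne'
  unfold SP aI
  rw [finsum_eq_sum_of_fintype, finsum_eq_sum_of_fintype, ← mul_assoc, mul_div_cancel₀ _ hN]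
  simp only [fr_iff h]
  rw [← Equiv.sum_comp (Equiv.mulRight g₀), Finset.sum_mul]
  symm
  refine Fintype.sum_of_injective (fun x : P.inertia G => (x : G)) Subtype.val_injective _ _ ?_ ?_
  · intro g hg
    have : g ∉ P.inertia G := fun h => hg ⟨⟨g, h⟩, rfl⟩
    simp [this]
  · intro x
    simp

theorem aI_one (P : Ideal B) : aI (1 : G →* ℂˣ) P = 1 := by
  have := Fintype.ofFinite (P.inertia G)
  have hN : (Nat.card (P.inertia G) : ℂ) ≠ 0 := by exact_mod_cast Nat.card_pos.ne'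
  unfold aI
  rw [finsum_eq_sum_of_fintype]
  simp only [MonoidHom.one_apply, Units.val_one, Finset.sum_const, Finset.card_univ, nsmul_eq_mul,
    mul_one]
  rw [← Nat.card_eq_fintype_card]
  exact div_self hN

theorem aI_cases (ψ : G →* ℂˣ) (P : Ideal B) : aI ψ P = 0 ∨ aI ψ P = 1 := by
  classical
  have := Fintype.ofFinite (P.inertia G)
  have hN : (Nat.card (P.inertia G) : ℂ) ≠ 0 := by exact_mod_cast Nat.card_pos.ne'
  by_cases h : ∀ g : P.inertia G, ψ g = 1
  · right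
    unfold aI
    rw [finsum_eq_sum_of_fintype]
    simp only [h, Units.val_one, Finset.sum_const, Finset.card_univ, nsmul_eq_mul, mul_one]
    rw [← Nat.card_eq_fintype_card]
    exact div_self hN
  · left
    push Not at h
    obtain ⟨g₀, hg₀⟩ := h
    unfold aI
    rw [finsum_eq_sum_of_fintype]
    have h1 : ∑ g : P.inertia G, ((ψ g : ℂˣ) : ℂ) = ((ψ g₀ : ℂˣ) : ℂ) *
        ∑ g : P.inertia G, ((ψ g : ℂˣ) : ℂ) := by
      rw [Finset.mul_sum, ← Equiv.sum_comp (Equiv.mulLeft g₀)]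
      refine Finset.sum_congr rfl fun g _ => ?_
      simp
    have h2 : (((ψ g₀ : ℂˣ) : ℂ) - 1) * ∑ g : P.inertia G, ((ψ g : ℂˣ) : ℂ) = 0 := by
      rw [sub_mul, one_mul, ← h1, sub_self]
    rcases mul_eq_zero.1 h2 with h3 | h3
    · exact absurd (Units.ext (sub_eq_zero.1 h3)) hg₀
    · rw [h3, zero_div]

theorem SP_pow (ψ : G →* ℂˣ) (P : Ideal B) (q k : ℕ) (hk : k ≠ 0) (φ : G)
    (h : Fr P q (φ • ·)) :
    SP ψ P (q ^ k) = Nat.card (P.inertia G) * (SP ψ P q / Nat.card (P.inertia G)) ^ k := by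
  have hN : (Nat.card (P.inertia G) : ℂ) ≠ 0 := by exact_mod_cast Nat.card_pos.ne'
  rw [SP_eq ψ P (q ^ k) (φ ^ k) (fr_pow h k), SP_eq ψ P q φ h, mul_div_cancel_left₀ _ hN,
    mul_pow, map_pow, Units.val_pow_eq_pow_val]
  congr 2
  rcases aI_cases ψ P with h | h
  · rw [h, zero_pow hk]
  · rw [h, one_pow]

end sums

end

end Pool.Agent.Helper70.Art
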